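import Pool.Agent.V5helper43.NC.Stm

/-!
# Project NC, job FIN1: the final statement with powers of the logarithm
-/

set_option autoImplicit false

open Finset

namespace Pool.Agent.V5helper49.NC

open Pool.Agent.V5helper43.NC

/-- the block lengths -/
def lf (κ i : ℕ) : ℕ := 5 * κ * (Nat.log 2 (i + 1) + 1) + 5

theorem lf_mono (κ : ℕ) : Monotone (lf κ) := by
  intro i j h
  unfold lf
  have : Nat.log 2 (i + 1) ≤ Nat.log 2 (j + 1) := Nat.log_mono_right (by omega)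
  gcongr

/-- the parameters -/
def par (κ : ℕ) : Par where
  l := lf κ
  mono := lf_mono κ
  five := fun i => by unfold lf; omega

theorem par_l (κ i : ℕ) : (par κ).l i = lf κ i := rfl

theorem rep_finite (A : Set ℕ) (n : ℕ) : {p : ℕ × ℕ | p.1 ∈ A ∧ p.2 ∈ A ∧ p.1 + p.2 = n}.Finite := by
  apply Set.Finite.subset ((Set.finite_Iic n).prod (Set.finite_Iic n))
  rintro ⟨a, b⟩ ⟨_, _, h⟩
  simp only [Set.mem_prod, Set.mem_Iic]
  simp only at h
  omega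

theorem rep_pos {A : Set ℕ} {n : ℕ} (h : ∃ e ∈ A, ∃ f ∈ A, e + f = n) : 1 ≤ rep A n := by
  obtain ⟨e, he, f, hf, hef⟩ := h
  unfold rep
  exact (Set.ncard_pos (rep_finite A n)).2 ⟨(e, f), he, hf, hef⟩

theorem rep_le (A : Set ℕ) (n : ℕ) : rep A n ≤ n + 1 := by
  unfold rep
  have h1 : Set.InjOn Prod.fst {p : ℕ × ℕ | p.1 ∈ A ∧ p.2 ∈ A ∧ p.1 + p.2 = n} := by
    rintro ⟨a, b⟩ ⟨_, _, h⟩ ⟨a', b'⟩ ⟨_, _, h'⟩ e
    simp only at h h' e
    rw [Prod.mk.injEq]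
    omega
  rw [← h1.ncard_image]
  have h2 : Prod.fst '' {p : ℕ × ℕ | p.1 ∈ A ∧ p.2 ∈ A ∧ p.1 + p.2 = n} ⊆
      ((range (n + 1) : Finset ℕ) : Set ℕ) := by
    rintro x ⟨⟨a, b⟩, ⟨_, _, h⟩, rfl⟩
    simp only at h ⊢
    rw [coe_range, Set.mem_Iio]
    omega
  have h3 := Set.ncard_le_ncard h2 (finite_toSet _)
  rwa [Set.ncard_coe_finset, card_range] at h3

/-- `4 ^ (k - 1) ≤ x < 4 ^ k` -/
theorem exists_pow (x : ℕ) (hx : 1 ≤ x) : ∃ k : ℕ, 4 ^ k ≤ x ∧ x < 4 ^ (k + 1) :=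
  ⟨Nat.log 4 x, Nat.pow_log_le_self 4 (by omega), Nat.lt_pow_succ_log_self (by norm_num) x⟩

/-- the block containing `k` -/
theorem exists_blk (f : ℕ → ℕ) (hf : ∀ j, j ≤ f j) (k : ℕ) (h0 : f 0 ≤ k) :
    ∃ j, f j ≤ k ∧ k < f (j + 1) := by
  by_contra hcon
  push Not at hcon
  have : ∀ j, f j ≤ k := by
    intro j
    induction j with
    | zero => exact h0
    | succ j ih => exact hcon j ih
  have h1 := this (k + 1)
  have h2 := hf (k + 1)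
  omega

theorem two_pow_lf (κ i : ℕ) : 2 ^ lf κ i ≤ 32 * (2 * (i + 1)) ^ (5 * κ) := by
  unfold lf
  have h1 : 2 ^ Nat.log 2 (i + 1) ≤ i + 1 := Nat.pow_log_le_self 2 (by omega)
  have h2 : 2 ^ (Nat.log 2 (i + 1) + 1) ≤ 2 * (i + 1) := by
    rw [pow_succ]
    omega
  calc 2 ^ (5 * κ * (Nat.log 2 (i + 1) + 1) + 5)
      = 32 * (2 ^ (Nat.log 2 (i + 1) + 1)) ^ (5 * κ) := by
        rw [pow_add, ← pow_mul, mul_comm (5 * κ)]
        ring
    _ ≤ 32 * (2 * (i + 1)) ^ (5 * κ) := by gcongr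

theorem lf_le (κ i : ℕ) : lf κ i ≤ (5 * κ + 5) * (i + 2) := by
  unfold lf
  have h1 : Nat.log 2 (i + 1) ≤ i + 1 := (Nat.log_lt_self 2 (by omega)).le
  have h2 : 5 * κ * (Nat.log 2 (i + 1) + 1) ≤ 5 * κ * (i + 2) := Nat.mul_le_mul_left _ (by omega)
  calc 5 * κ * (Nat.log 2 (i + 1) + 1) + 5 ≤ 5 * κ * (i + 2) + 5 := by omega
    _ ≤ (5 * κ + 5) * (i + 2) := by rw [add_mul]; omega

theorem m_le (κ i : ℕ) : (par κ).m i ≤ (10 * κ + 10) * (i + 2) ^ 2 := by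
  have h : (par κ).m i ≤ i * (2 * lf κ i) := by
    induction i with
    | zero => simp [Par.m]
    | succ i ih =>
      rw [Par.m_succ]
      have h1 : (par κ).s i ≤ 2 * lf κ (i + 1) := by
        unfold Par.s
        rw [par_l]
        have : lf κ i ≤ lf κ (i + 1) := lf_mono κ (Nat.le_succ i)
        omega
      have h2 : i * (2 * lf κ i) ≤ i * (2 * lf κ (i + 1)) := by
        have : lf κ i ≤ lf κ (i + 1) := lf_mono κ (Nat.le_succ i)
        gcongr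
      calc (par κ).m i + (par κ).s i ≤ i * (2 * lf κ (i + 1)) + 2 * lf κ (i + 1) := by omega
        _ = (i + 1) * (2 * lf κ (i + 1)) := by ring
  refine h.trans ?_
  have h3 := lf_le κ i
  calc i * (2 * lf κ i) ≤ (i + 2) * (2 * ((5 * κ + 5) * (i + 2))) := by gcongr; omega
    _ = (10 * κ + 10) * (i + 2) ^ 2 := by ring

theorem ml_le (κ i : ℕ) : (par κ).m i + (par κ).l i ≤ (15 * κ + 15) * (i + 2) ^ 2 := by
  have h1 := m_le κ i
  have h2 : (par κ).l i ≤ (5 * κ + 5) * (i + 2) ^ 2 := by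
    rw [par_l]
    refine (lf_le κ i).trans ?_
    gcongr
    nlinarith
  calc (par κ).m i + (par κ).l i ≤ (10 * κ + 10) * (i + 2) ^ 2 + (5 * κ + 5) * (i + 2) ^ 2 := by
        omega
    _ = (15 * κ + 15) * (i + 2) ^ 2 := by ring

theorem ml_ge (κ i : ℕ) : 10 * i + 5 ≤ (par κ).m i + (par κ).l i := by
  have h1 := (par κ).m_ge i
  have h2 := (par κ).five i
  omega

/-- the upper bound of REP, simplified -/
theorem rep_bound (κ J : ℕ) :
    8 * (J + 1) * (par κ).zb J * 2 ^ ((par κ).s J + (par κ).s (J + 1) + (par κ).l (J + 2) + 7) ≤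
      (4096 * (20 * κ + 21) * 32 ^ 7 * 2 ^ (35 * κ)) * (J + 3) ^ (35 * κ + 4) := by
  have hl1 : lf κ J ≤ lf κ (J + 2) := lf_mono κ (by omega)
  have hl2 : lf κ (J + 1) ≤ lf κ (J + 2) := lf_mono κ (by omega)
  have e1 : 8 * (J + 1) * (par κ).zb J *
      2 ^ ((par κ).s J + (par κ).s (J + 1) + (par κ).l (J + 2) + 7) =
      4096 * (J + 1) ^ 2 * (J + 1 + 2 * (par κ).m J) *
        2 ^ (4 * lf κ J + 2 * lf κ (J + 1) + lf κ (J + 2)) := by
    unfold Par.zb Par.s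
    simp only [par_l]
    have : 2 ^ (4 * lf κ J + 2 * lf κ (J + 1) + lf κ (J + 2)) * 128 =
        2 ^ (2 * lf κ J) * 2 ^ (2 * lf κ J + 2 * lf κ (J + 1) + lf κ (J + 2) + 7) := by
      rw [← pow_add]
      have : 2 * lf κ J + (2 * lf κ J + 2 * lf κ (J + 1) + lf κ (J + 2) + 7) =
        (4 * lf κ J + 2 * lf κ (J + 1) + lf κ (J + 2)) + 7 := by ring
      rw [this, pow_add _ _ 7]
      norm_num
    calc 8 * (J + 1) * (4 * 2 ^ (2 * lf κ J) * (J + 1) * (J + 1 + 2 * (par κ).m J)) *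
        2 ^ (2 * lf κ J + 2 * lf κ (J + 1) + lf κ (J + 2) + 7)
        = 32 * (J + 1) ^ 2 * (J + 1 + 2 * (par κ).m J) * (2 ^ (2 * lf κ J) *
          2 ^ (2 * lf κ J + 2 * lf κ (J + 1) + lf κ (J + 2) + 7)) := by ring
      _ = _ := by rw [← this]; ring
  rw [e1]
  have h1 : 2 ^ (4 * lf κ J + 2 * lf κ (J + 1) + lf κ (J + 2)) ≤
      32 ^ 7 * 2 ^ (35 * κ) * (J + 3) ^ (35 * κ) := by
    calc 2 ^ (4 * lf κ J + 2 * lf κ (J + 1) + lf κ (J + 2)) ≤ 2 ^ (7 * lf κ (J + 2)) := by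
          apply Nat.pow_le_pow_right (by norm_num)
          omega
      _ = (2 ^ lf κ (J + 2)) ^ 7 := by rw [← pow_mul, mul_comm]
      _ ≤ (32 * (2 * (J + 2 + 1)) ^ (5 * κ)) ^ 7 := by
          gcongr
          exact two_pow_lf κ (J + 2)
      _ = 32 ^ 7 * 2 ^ (35 * κ) * (J + 3) ^ (35 * κ) := by
          rw [mul_pow, ← pow_mul, mul_pow]
          have : 5 * κ * 7 = 35 * κ := by ring
          rw [this]
          ring
  have h2 : J + 1 + 2 * (par κ).m J ≤ (20 * κ + 21) * (J + 3) ^ 2 := by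
    have := m_le κ J
    have h3 : (J + 2) ^ 2 ≤ (J + 3) ^ 2 := by gcongr; omega
    have h4 : J + 1 ≤ (J + 3) ^ 2 := by nlinarith
    calc J + 1 + 2 * (par κ).m J ≤ (J + 3) ^ 2 + 2 * ((10 * κ + 10) * (J + 3) ^ 2) := by
          have h5 : (par κ).m J ≤ (10 * κ + 10) * (J + 3) ^ 2 :=
            this.trans (Nat.mul_le_mul_left _ h3)
          omega
      _ = (20 * κ + 21) * (J + 3) ^ 2 := by ring
  calc 4096 * (J + 1) ^ 2 * (J + 1 + 2 * (par κ).m J) *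
        2 ^ (4 * lf κ J + 2 * lf κ (J + 1) + lf κ (J + 2))
      ≤ 4096 * (J + 3) ^ 2 * ((20 * κ + 21) * (J + 3) ^ 2) *
        (32 ^ 7 * 2 ^ (35 * κ) * (J + 3) ^ (35 * κ)) := by
        gcongr
        omega
    _ = _ := by rw [pow_add (J + 3) (35 * κ) 4]; ring

/-- (c) -/
theorem partC (hR : S_REP) (κ : ℕ) (S : Sys (par κ)) :
    ∃ C : ℝ, ∀ n : ℕ, 2 ≤ n → (rep S.A n : ℝ) ≤ C * Real.log n ^ (35 * κ + 4) := by
  obtain ⟨D, hD⟩ : ∃ D : ℕ, D = 4096 * (20 * κ + 21) * 32 ^ 7 * 2 ^ (35 * κ) := ⟨_, rfl⟩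
  obtain ⟨E, hE⟩ : ∃ E : ℕ, E = (par κ).X 1 + 1 := ⟨_, rfl⟩
  have hl2 : (0 : ℝ) < Real.log 2 ^ (35 * κ + 4) := pow_pos (Real.log_pos (by norm_num)) _
  refine ⟨D + E / Real.log 2 ^ (35 * κ + 4), fun n hn => ?_⟩
  have hlogn : Real.log 2 ≤ Real.log n := Real.log_le_log (by norm_num) (by exact_mod_cast hn)
  have hpn : Real.log 2 ^ (35 * κ + 4) ≤ Real.log n ^ (35 * κ + 4) := by
    have := Real.log_pos (show (1 : ℝ) < 2 by norm_num)
    gcongr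
  have hpn0 : (0 : ℝ) < Real.log n ^ (35 * κ + 4) := hl2.trans_le hpn
  have hDE : (0 : ℝ) ≤ E / Real.log 2 ^ (35 * κ + 4) := by positivity
  rcases lt_or_ge n ((par κ).X 1) with hsm | hbig
  · have h1 : (rep S.A n : ℝ) ≤ E := by
      have := rep_le S.A n
      have h2 : rep S.A n ≤ E := by omega
      exact_mod_cast h2
    calc (rep S.A n : ℝ) ≤ E := h1
      _ = E / Real.log 2 ^ (35 * κ + 4) * Real.log 2 ^ (35 * κ + 4) := by field_simp
      _ ≤ E / Real.log 2 ^ (35 * κ + 4) * Real.log n ^ (35 * κ + 4) := by gcongr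
      _ ≤ (D + E / Real.log 2 ^ (35 * κ + 4)) * Real.log n ^ (35 * κ + 4) := by
          gcongr
          have : (0 : ℝ) ≤ D := by positivity
          linarith
  · have hbl := exists_blk (fun j => (par κ).X (j + 1)) (fun j => by
      show j ≤ 4 ^ ((par κ).m (j + 1) + (par κ).l (j + 1))
      have h1 := ml_ge κ (j + 1)
      have h2 : (par κ).m (j + 1) + (par κ).l (j + 1) <
        4 ^ ((par κ).m (j + 1) + (par κ).l (j + 1)) := Nat.lt_pow_self (by norm_num)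
      omega) n hbig
    obtain ⟨j, hj1, hj2⟩ := hbl
    have h1 := (hR (par κ) S (j + 1) n hj2).trans (rep_bound κ (j + 1))
    rw [← hD] at h1
    have h2 : ((j + 1 + 3 : ℕ) : ℝ) ≤ Real.log n := by
      have h3 : ((4 : ℝ) ^ (10 * (j + 1) + 5)) ≤ n := by
        have h4 : 4 ^ (10 * (j + 1) + 5) ≤ n :=
          (Nat.pow_le_pow_right (by norm_num) (ml_ge κ (j + 1))).trans hj1
        exact_mod_cast h4
      have h5 := Real.log_le_log (by positivity) h3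
      rw [Real.log_pow] at h5
      have h6 : (1 : ℝ) ≤ Real.log 4 := by
        rw [show (4 : ℝ) = 2 ^ 2 by norm_num, Real.log_pow]
        have := Real.log_two_gt_d9
        push_cast
        linarith
      refine le_trans ?_ h5
      push_cast
      nlinarith
    calc (rep S.A n : ℝ) ≤ ((D * (j + 1 + 3) ^ (35 * κ + 4) : ℕ) : ℝ) := by exact_mod_cast h1
      _ = D * ((j + 1 + 3 : ℕ) : ℝ) ^ (35 * κ + 4) := by push_cast; ring
      _ ≤ D * Real.log n ^ (35 * κ + 4) := by gcongr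
      _ ≤ (D + E / Real.log 2 ^ (35 * κ + 4)) * Real.log n ^ (35 * κ + 4) := by
          gcongr
          linarith

/-- (b) -/
theorem partB (hA : S_CNTA) (π : Par) (S : Sys π) :
    ∃ C : ℝ, ∀ x : ℕ, 1 ≤ x → ({a | a ∈ S.A ∧ a ≤ x}.ncard : ℝ) ≤ C * Real.sqrt x := by
  obtain ⟨k₀, hk₀⟩ : ∃ k, k = π.m 2 + π.l 2 := ⟨_, rfl⟩
  refine ⟨34 * 2 ^ k₀ + 68, fun x hx => ?_⟩
  obtain ⟨k, hk1, hk2⟩ := exists_pow x hx
  have hs1 : (1 : ℝ) ≤ Real.sqrt x := by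
    rw [Real.one_le_sqrt]
    exact_mod_cast hx
  have hs2 : (2 : ℝ) ^ k ≤ Real.sqrt x := by
    apply Real.le_sqrt_of_sq_le
    rw [← pow_mul, mul_comm, pow_mul]
    norm_num
    exact_mod_cast hk1
  have hsub : ∀ K : ℕ, k + 1 ≤ K → {a | a ∈ S.A ∧ a ≤ x}.ncard ≤ cnt S.A (4 ^ K) := by
    intro K hK
    apply Set.ncard_le_ncard
    · rintro a ⟨ha, hax⟩
      exact ⟨ha, by
        have : 4 ^ (k + 1) ≤ 4 ^ K := Nat.pow_le_pow_right (by norm_num) hK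
        omega⟩
    · exact (Set.finite_Iio (4 ^ K)).subset fun a ha => ha.2
  rcases le_or_gt k₀ (k + 1) with h | h
  · have h1 := (hsub (k + 1) le_rfl).trans (hA π S (k + 1) (hk₀ ▸ h))
    calc ({a | a ∈ S.A ∧ a ≤ x}.ncard : ℝ) ≤ ((34 * 2 ^ (k + 1) : ℕ) : ℝ) := by exact_mod_cast h1
      _ = 68 * 2 ^ k := by push_cast; ring
      _ ≤ 68 * Real.sqrt x := by gcongr
      _ ≤ (34 * 2 ^ k₀ + 68) * Real.sqrt x := by
          gcongr
          have : (0 : ℝ) ≤ 34 * 2 ^ k₀ := by positivity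
          linarith
  · have h1 := (hsub k₀ (by omega)).trans (hA π S k₀ hk₀.ge)
    calc ({a | a ∈ S.A ∧ a ≤ x}.ncard : ℝ) ≤ ((34 * 2 ^ k₀ : ℕ) : ℝ) := by exact_mod_cast h1
      _ = 34 * 2 ^ k₀ * 1 := by push_cast; ring
      _ ≤ (34 * 2 ^ k₀ + 68) * Real.sqrt x := by
          gcongr
          linarith

theorem ratio_le (κ j : ℕ) : ((3 : ℝ) / 4) ^ lf κ j * ((j : ℝ) + 1) ^ (2 * κ) ≤ 1 := by
  unfold lf
  have h1 : j + 1 < 2 ^ (Nat.log 2 (j + 1) + 1) := Nat.lt_pow_succ_log_self (by norm_num) _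
  have h2 : ((j : ℝ) + 1) ≤ 2 ^ (Nat.log 2 (j + 1) + 1) := by exact_mod_cast h1.le
  set L := Nat.log 2 (j + 1) + 1 with hL
  have h3 : ((3 : ℝ) / 4) ^ (5 * κ * L + 5) ≤ (1 / 4) ^ (κ * L) := by
    calc ((3 : ℝ) / 4) ^ (5 * κ * L + 5) ≤ (3 / 4) ^ (5 * κ * L) :=
          pow_le_pow_of_le_one (by norm_num) (by norm_num) (by omega)
      _ = ((3 / 4) ^ 5) ^ (κ * L) := by rw [← pow_mul]; congr 1; ring
      _ ≤ (1 / 4) ^ (κ * L) := by
          gcongr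
          norm_num
  calc ((3 : ℝ) / 4) ^ (5 * κ * L + 5) * ((j : ℝ) + 1) ^ (2 * κ)
      ≤ (1 / 4) ^ (κ * L) * (2 ^ L) ^ (2 * κ) := by gcongr
    _ = (1 / 4) ^ (κ * L) * 4 ^ (κ * L) := by
        rw [← pow_mul, show (4 : ℝ) = 2 ^ 2 by norm_num, ← pow_mul, show L * (2 * κ) =
          2 * (κ * L) by ring]
    _ = 1 := by rw [← mul_pow]; norm_num

/-- (d) -/
theorem partD (hX : S_EXC) (κ : ℕ) (S : Sys (par κ)) :
    ∃ C : ℝ, ∀ x : ℕ, 2 ≤ x →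
      ({n | n ≤ x ∧ rep S.A n ≠ 2}.ncard : ℝ) ≤ C * (x / Real.log x ^ κ) := by
  obtain ⟨k₀, hk₀⟩ : ∃ k, k = (par κ).m 2 + (par κ).l 2 := ⟨_, rfl⟩
  obtain ⟨D, hD⟩ : ∃ D : ℝ, D = 50 * (15 * κ + 15) := ⟨_, rfl⟩
  have hD0 : 0 < D := by rw [hD]; positivity
  refine ⟨2 * (2 * k₀) ^ κ + 160000 * D ^ κ, fun x hx => ?_⟩
  obtain ⟨k, hk1, hk2⟩ := exists_pow x (by omega)
  have hx0 : (0 : ℝ) < x := by exact_mod_cast (by omega : 0 < x)
  have hlog0 : 0 < Real.log x := Real.log_pos (by exact_mod_cast hx)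
  have hlogx : Real.log x ≤ 2 * ((k : ℝ) + 1) := by
    have h1 : (x : ℝ) ≤ 4 ^ (k + 1) := by exact_mod_cast hk2.le
    have h2 := Real.log_le_log hx0 h1
    rw [Real.log_pow] at h2
    have h3 : Real.log 4 ≤ 2 := by
      rw [show (4 : ℝ) = 2 ^ 2 by norm_num, Real.log_pow]
      have := Real.log_two_lt_d9
      push_cast
      linarith
    refine h2.trans ?_
    push_cast
    nlinarith [(Nat.cast_nonneg k : (0 : ℝ) ≤ k)]
  rcases lt_or_ge (k + 1) k₀ with h | h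
  · have h1 : ({n | n ≤ x ∧ rep S.A n ≠ 2}.ncard : ℝ) ≤ 2 * x := by
      have h2 : {n | n ≤ x ∧ rep S.A n ≠ 2}.ncard ≤ x + 1 := by
        have h3 : {n | n ≤ x ∧ rep S.A n ≠ 2} ⊆ ((range (x + 1) : Finset ℕ) : Set ℕ) := by
          rintro n ⟨hn, _⟩
          rw [coe_range, Set.mem_Iio]
          omega
        have h4 := Set.ncard_le_ncard h3 (finite_toSet _)
        rwa [Set.ncard_coe_finset, card_range] at h4
      have h5 : {n | n ≤ x ∧ rep S.A n ≠ 2}.ncard ≤ 2 * x := by omega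
      exact_mod_cast h5
    have h2 : Real.log x ^ κ ≤ (2 * (k₀ : ℝ)) ^ κ := by
      have : ((k : ℝ) + 1) ≤ k₀ := by exact_mod_cast h.le
      gcongr
      linarith
    calc ({n | n ≤ x ∧ rep S.A n ≠ 2}.ncard : ℝ) ≤ 2 * x := h1
      _ = 2 * Real.log x ^ κ * (x / Real.log x ^ κ) := by field_simp
      _ ≤ 2 * (2 * (k₀ : ℝ)) ^ κ * (x / Real.log x ^ κ) := by gcongr
      _ ≤ (2 * (2 * k₀) ^ κ + 160000 * D ^ κ) * (x / Real.log x ^ κ) := by
          gcongr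
          have : (0 : ℝ) ≤ 160000 * D ^ κ := by positivity
          linarith
  · have hbl := exists_blk (fun j => (par κ).m (j + 2) + (par κ).l (j + 2)) (fun j => by
      show j ≤ (par κ).m (j + 2) + (par κ).l (j + 2)
      have h1 := ml_ge κ (j + 2)
      omega) (k + 1) (by simpa [← hk₀] using h)
    obtain ⟨j, hj1, hj2⟩ := hbl
    have h1 := hX (par κ) S j (k + 1) hj1 hj2.le
    have h2 : {n | n ≤ x ∧ rep S.A n ≠ 2}.ncard ≤ {n | n < 4 ^ (k + 1) ∧ rep S.A n ≠ 2}.ncard := by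
      apply Set.ncard_le_ncard
      · rintro n ⟨hn, hr⟩
        exact ⟨by omega, hr⟩
      · exact (Set.finite_Iio (4 ^ (k + 1))).subset fun a ha => ha.1
    have h3 : ({n | n < 4 ^ (k + 1) ∧ rep S.A n ≠ 2}.ncard : ℝ) ≤
        40000 * 4 ^ (k + 1) * (3 / 4) ^ lf κ j := by
      have h4 : ({n | n < 4 ^ (k + 1) ∧ rep S.A n ≠ 2}.ncard : ℝ) * 4 ^ lf κ j ≤
          40000 * 4 ^ (k + 1) * 3 ^ lf κ j := by exact_mod_cast h1
      rw [div_pow, mul_div_assoc', le_div_iff₀ (by positivity)]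
      exact h4
    have h4 : (4 : ℝ) ^ (k + 1) ≤ 4 * x := by
      have : (4 : ℝ) ^ k ≤ x := by exact_mod_cast hk1
      rw [pow_succ]
      linarith
    have h5 : Real.log x ≤ D * ((j : ℝ) + 1) ^ 2 := by
      have h6 : k + 1 ≤ (15 * κ + 15) * (j + 3 + 2) ^ 2 := hj2.le.trans (ml_le κ (j + 3))
      have h7 : (j + 3 + 2) ^ 2 ≤ 25 * (j + 1) ^ 2 := by
        calc (j + 3 + 2) ^ 2 ≤ (5 * (j + 1)) ^ 2 := Nat.pow_le_pow_left (by omega) 2
          _ = 25 * (j + 1) ^ 2 := by ring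
      have h8 : k + 1 ≤ (15 * κ + 15) * (25 * (j + 1) ^ 2) := h6.trans (Nat.mul_le_mul_left _ h7)
      have h9 : ((k : ℝ) + 1) ≤ (15 * κ + 15) * (25 * (j + 1) ^ 2) := by exact_mod_cast h8
      rw [hD]
      linarith
    have h6 : Real.log x ^ κ ≤ D ^ κ * ((j : ℝ) + 1) ^ (2 * κ) := by
      calc Real.log x ^ κ ≤ (D * ((j : ℝ) + 1) ^ 2) ^ κ := by gcongr
        _ = D ^ κ * ((j : ℝ) + 1) ^ (2 * κ) := by rw [mul_pow, ← pow_mul]
    have h7 : ((3 : ℝ) / 4) ^ lf κ j ≤ D ^ κ / Real.log x ^ κ := by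
      rw [le_div_iff₀ (by positivity)]
      calc ((3 : ℝ) / 4) ^ lf κ j * Real.log x ^ κ
          ≤ (3 / 4) ^ lf κ j * (D ^ κ * ((j : ℝ) + 1) ^ (2 * κ)) := by gcongr
        _ = D ^ κ * ((3 / 4) ^ lf κ j * ((j : ℝ) + 1) ^ (2 * κ)) := by ring
        _ ≤ D ^ κ * 1 := by
            gcongr
            exact ratio_le κ j
        _ = D ^ κ := mul_one _
    calc ({n | n ≤ x ∧ rep S.A n ≠ 2}.ncard : ℝ)
        ≤ {n | n < 4 ^ (k + 1) ∧ rep S.A n ≠ 2}.ncard := by exact_mod_cast h2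
      _ ≤ 40000 * 4 ^ (k + 1) * (3 / 4) ^ lf κ j := h3
      _ ≤ 40000 * (4 * x) * (D ^ κ / Real.log x ^ κ) := by gcongr
      _ = 160000 * D ^ κ * (x / Real.log x ^ κ) := by ring
      _ ≤ (2 * (2 * k₀) ^ κ + 160000 * D ^ κ) * (x / Real.log x ^ κ) := by
          gcongr
          have : (0 : ℝ) ≤ 2 * (2 * k₀) ^ κ := by positivity
          linarith

theorem t_FIN1 (h1 : S_SYS) (h2 : S_COV) (h3 : S_CNTA) (h4 : S_EXC) (h5 : S_REP) : S_FIN1 := by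
  intro κ
  obtain ⟨S⟩ := h1 (par κ)
  exact ⟨S.A, ⟨(par κ).X 1, fun n hn => rep_pos (h2 (par κ) S n hn)⟩, partB h3 (par κ) S,
    partC h5 κ S, partD h4 κ S⟩

end Pool.Agent.V5helper49.NC
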